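import Pool.Agent.Helper69.GC.Defs

set_option autoImplicit false

/-! Module CNT: the coordinates determine an element of the group modulo `Lat k`. -/

namespace Pool.Agent.Helper69.GC

open Polynomial

theorem cnt_crd00 (k s : ℕ) (h1 : 1 ≤ s) (h2 : 3 * s ≤ k) :
    ((0 : Fin 3), (0 : Fin 3), s) ∈ crd k := by
  unfold crd
  simp only [Finset.mem_union, Finset.mem_image, Finset.mem_filter, Finset.mem_range]
  exact Or.inl (Or.inl (Or.inl (Or.inl ⟨s, ⟨by omega, h1, h2⟩, rfl⟩)))

theorem cnt_crd01 (k s : ℕ) (h2 : 3 * s + 1 ≤ k) :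
    ((0 : Fin 3), (1 : Fin 3), s) ∈ crd k := by
  unfold crd
  simp only [Finset.mem_union, Finset.mem_image, Finset.mem_filter, Finset.mem_range]
  exact Or.inl (Or.inl (Or.inl (Or.inr ⟨s, ⟨by omega, h2⟩, rfl⟩)))

theorem cnt_crd10 (k s : ℕ) (h2 : 3 * s + 2 ≤ k) :
    ((1 : Fin 3), (0 : Fin 3), s + 1) ∈ crd k := by
  unfold crd
  simp only [Finset.mem_union, Finset.mem_image, Finset.mem_filter, Finset.mem_range]
  exact Or.inl (Or.inl (Or.inr ⟨s, ⟨by omega, h2⟩, rfl⟩))

theorem cnt_crd20 (k s : ℕ) (h1 : s % 2 = 0) (h2 : 3 * s + 1 < k) :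
    ((2 : Fin 3), (0 : Fin 3), s + 1) ∈ crd k := by
  unfold crd
  simp only [Finset.mem_union, Finset.mem_image, Finset.mem_filter, Finset.mem_range]
  exact Or.inl (Or.inr ⟨s, ⟨by omega, h1, h2⟩, rfl⟩)

theorem cnt_crd02 (k s : ℕ) (h1 : s % 2 = 1) (h2 : 3 * s + 2 < k) :
    ((0 : Fin 3), (2 : Fin 3), s) ∈ crd k := by
  unfold crd
  simp only [Finset.mem_union, Finset.mem_image, Finset.mem_filter, Finset.mem_range]
  exact Or.inr ⟨s, ⟨by omega, h1, h2⟩, rfl⟩

section

variable {F : Type} [Field F]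

/-- all terms of `p` have degree at least `e / 3` -/
def cnt_V (p : F[X]) (e : ℤ) : Prop := ∀ s : ℕ, 3 * (s : ℤ) < e → p.coeff s = 0

theorem cnt_V_mul {p q : F[X]} {e f : ℤ} (hp : cnt_V p e) (hq : cnt_V q f) :
    cnt_V (p * q) (e + f) := by
  intro s hs
  rw [coeff_mul]
  refine Finset.sum_eq_zero fun x hx => ?_
  rw [Finset.HasAntidiagonal.mem_antidiagonal] at hx
  by_cases h1 : 3 * (x.1 : ℤ) < e
  · rw [hp _ h1, zero_mul]
  · rw [hq x.2 (by omega), mul_zero]

theorem cnt_V_fil {d : ℕ} {M : Mat F} (h : Fil d M) (i j : Fin 3) :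
    cnt_V (M i j) ((d : ℤ) + (i : ℕ) - (j : ℕ)) := by
  intro s hs
  exact h i j s (by omega)

theorem cnt_V_mono {p : F[X]} {e f : ℤ} (hp : cnt_V p e) (h : f ≤ e) : cnt_V p f :=
  fun s hs => hp s (by omega)

/-- one step -/
theorem cnt_step (h1 : ST_ALG) (h2 : ST_FIL) (hF : (2 : F) ≠ 0) (k d : ℕ) (M N X : Mat F)
    (hd1 : 1 ≤ d) (hdk : d ≤ k) (hX : Fil d X) (hN : Fil 1 (N - 1)) (hMN : M - N = N * X)
    (htw : X + tw X + X * tw X = 0) (hdet : (1 + X).det = 1)
    (hc : ∀ c ∈ crd k, (M c.1 c.2.1).coeff c.2.2 = (N c.1 c.2.1).coeff c.2.2)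
    (i j : Fin 3) (s : ℕ) (hs : 3 * s + (j : ℕ) = d + (i : ℕ))
    (hcor : ¬ (d = k ∧ ((i = 2 ∧ j = 0) ∨ (i = 0 ∧ j = 2)))) : (X i j).coeff s = 0 := by
  obtain ⟨-, -, -, -, htc, -⟩ := h1 F hF
  obtain ⟨fmul, -, -, -, ftw⟩ := h2 F k
  -- coefficients of degree d
  have hXc : ∀ (i j : Fin 3) (s : ℕ), 3 * s + (j : ℕ) = d + (i : ℕ) →
      (X i j).coeff s = (M i j).coeff s - (N i j).coeff s := by
    intro i j s hs
    have e1 : M - N = X + (N - 1) * X := by
      rw [hMN, sub_mul, one_mul]; abel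
    have e2 := fmul 1 d (N - 1) X hN hX
    have e3 : (((N - 1) * X) i j).coeff s = 0 := e2 i j s (by omega)
    have e4 : (M - N) i j = X i j + ((N - 1) * X) i j := by rw [e1]; rfl
    have e5 : (M - N) i j = M i j - N i j := rfl
    rw [e5] at e4
    have e6 := congrArg (fun p => p.coeff s) e4
    simp only [coeff_sub, coeff_add, e3, add_zero] at e6
    exact e6.symm
  have hrel : ∀ (i j : Fin 3) (s : ℕ), 3 * s + (j : ℕ) = d + (i : ℕ) →
      (X i j).coeff s + (-1) ^ (s + (i : ℕ) + (j : ℕ)) * (X j.rev i.rev).coeff s = 0 := by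
    intro i j s hs
    have e2 := fmul d d X (tw X) hX (ftw d X hX)
    have e3 : ((X * tw X) i j).coeff s = 0 := e2 i j s (by omega)
    have e4 : (X i j + tw X i j + (X * tw X) i j) = 0 := by
      have := congrFun (congrFun htw i) j
      exact this
    have e6 := congrArg (fun p => p.coeff s) e4
    simp only [coeff_add, e3, add_zero, coeff_zero] at e6
    rw [htc] at e6
    exact e6
  have htr : ∀ s, 3 * s = d → (X 0 0).coeff s + (X 1 1).coeff s + (X 2 2).coeff s = 0 := by
    intro s hs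
    have e1 : (X 0 0) + (X 1 1) + (X 2 2) + ((X 0 0 * X 1 1 - X 0 1 * X 1 0) +
        (X 0 0 * X 2 2 - X 0 2 * X 2 0) + (X 1 1 * X 2 2 - X 1 2 * X 2 1)) + X.det = 0 := by
      rw [Matrix.det_fin_three] at hdet
      simp only [Matrix.add_apply, Matrix.one_apply_eq] at hdet
      rw [Matrix.one_apply_ne (by decide), Matrix.one_apply_ne (by decide),
        Matrix.one_apply_ne (by decide), Matrix.one_apply_ne (by decide),
        Matrix.one_apply_ne (by decide), Matrix.one_apply_ne (by decide)] at hdet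
      rw [Matrix.det_fin_three]
      linear_combination hdet
    have v := fun i j => cnt_V_fil hX i j
    have z2 : ∀ i j : Fin 3, (X i j * X j i).coeff s = 0 := fun i j =>
      cnt_V_mul (v i j) (v j i) s (by omega)
    have z3 : ∀ i j k l m n : Fin 3, (i : ℕ) + (k : ℕ) + (m : ℕ) = (j : ℕ) + (l : ℕ) + (n : ℕ) →
        (X i j * X k l * X m n).coeff s = 0 := fun i j k l m n hh =>
      cnt_V_mul (cnt_V_mul (v i j) (v k l)) (v m n) s (by omega)
    have z2' : ∀ i j : Fin 3, (X i i * X j j).coeff s = 0 := fun i j =>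
      cnt_V_mul (v i i) (v j j) s (by omega)
    have e6 := congrArg (fun p => p.coeff s) e1
    rw [Matrix.det_fin_three] at e6
    simp only [coeff_add, coeff_sub, coeff_zero, z2, z2', z3 0 0 1 1 2 2 rfl, z3 0 0 1 2 2 1 rfl,
      z3 0 1 1 0 2 2 rfl, z3 0 1 1 2 2 0 rfl, z3 0 2 1 0 2 1 rfl, z3 0 2 1 1 2 0 rfl] at e6
    simpa using e6
  -- the coordinates
  have hcc : ∀ (i j : Fin 3) (s : ℕ), 3 * s + (j : ℕ) = d + (i : ℕ) → (i, j, s) ∈ crd k →
      (X i j).coeff s = 0 := by
    intro i j s hs hm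
    rw [hXc i j s hs, hc _ hm, sub_self]
  have r2 : ∀ x : F, x + x = 0 → x = 0 := by
    intro x hx
    rw [← two_mul] at hx
    exact (mul_eq_zero.mp hx).resolve_left hF
  fin_cases i <;> fin_cases j
  · -- (0,0)
    simp only [Fin.zero_eta, Fin.val_zero, add_zero] at hs ⊢
    exact hcc 0 0 s (by simpa using hs) (cnt_crd00 k s (by omega) (by omega))
  · -- (0,1)
    simp only [Fin.zero_eta, Fin.mk_one, Fin.val_zero, Fin.val_one, add_zero] at hs ⊢
    exact hcc 0 1 s (by simpa using hs) (cnt_crd01 k s (by omega))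
  · -- (0,2)
    simp only [Fin.zero_eta, Fin.reduceFinMk, Fin.val_zero, Fin.val_two, add_zero] at hs ⊢
    rcases Nat.even_or_odd s with he | ho
    · have := hrel 0 2 s (by simpa using hs)
      simp only [Fin.val_zero, Fin.val_two, add_zero] at this
      rw [show (2 : Fin 3).rev = 0 from rfl, show (0 : Fin 3).rev = 2 from rfl,
        Even.neg_one_pow (by exact he.add even_two), one_mul] at this
      exact r2 _ this
    · have hk : d ≠ k := fun h => hcor ⟨h, Or.inr ⟨rfl, rfl⟩⟩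
      exact hcc 0 2 s (by simpa using hs) (cnt_crd02 k s (Nat.odd_iff.mp ho) (by omega))
  · -- (1,0)
    simp only [Fin.zero_eta, Fin.mk_one, Fin.val_zero, Fin.val_one, add_zero] at hs ⊢
    obtain ⟨s, rfl⟩ : ∃ u, s = u + 1 := ⟨s - 1, by omega⟩
    exact hcc 1 0 (s + 1) (by simpa using hs) (cnt_crd10 k s (by omega))
  · -- (1,1)
    simp only [Fin.mk_one, Fin.val_one] at hs ⊢
    have hs' : 3 * s = d := by omega
    have a0 : (X 0 0).coeff s = 0 :=
      hcc 0 0 s (by simpa using hs') (cnt_crd00 k s (by omega) (by omega))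
    have a2 := hrel 0 0 s (by simpa using hs')
    rw [a0, zero_add, show (0 : Fin 3).rev = 2 from rfl] at a2
    have a3 : (X 2 2).coeff s = 0 :=
      (mul_eq_zero.mp a2).resolve_left (pow_ne_zero _ (neg_ne_zero.mpr one_ne_zero))
    have := htr s hs'
    rw [a0, a3, zero_add, add_zero] at this
    exact this
  · -- (1,2)
    simp only [Fin.mk_one, Fin.reduceFinMk, Fin.val_one, Fin.val_two] at hs ⊢
    have hs' : 3 * s + 1 = d := by omega
    have a0 : (X 0 1).coeff s = 0 :=
      hcc 0 1 s (by simpa using hs') (cnt_crd01 k s (by omega))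
    have a2 := hrel 0 1 s (by simpa using hs')
    rw [a0, zero_add, show (0 : Fin 3).rev = 2 from rfl, show (1 : Fin 3).rev = 1 from rfl] at a2
    exact (mul_eq_zero.mp a2).resolve_left (pow_ne_zero _ (neg_ne_zero.mpr one_ne_zero))
  · -- (2,0)
    simp only [Fin.zero_eta, Fin.reduceFinMk, Fin.val_zero, Fin.val_two, add_zero] at hs ⊢
    obtain ⟨s, rfl⟩ : ∃ u, s = u + 1 := ⟨s - 1, by omega⟩
    rcases Nat.even_or_odd s with he | ho
    · have hk : d ≠ k := fun h => hcor ⟨h, Or.inl ⟨rfl, rfl⟩⟩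
      exact hcc 2 0 (s + 1) (by simpa using hs) (cnt_crd20 k s (Nat.even_iff.mp he) (by omega))
    · have := hrel 2 0 (s + 1) (by simpa using hs)
      simp only [Fin.val_zero, Fin.val_two, add_zero] at this
      rw [show (2 : Fin 3).rev = 0 from rfl, show (0 : Fin 3).rev = 2 from rfl,
        Even.neg_one_pow (by exact (ho.add_odd odd_one).add even_two), one_mul] at this
      exact r2 _ this
  · -- (2,1)
    simp only [Fin.mk_one, Fin.reduceFinMk, Fin.val_one, Fin.val_two] at hs ⊢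
    obtain ⟨s, rfl⟩ : ∃ u, s = u + 1 := ⟨s - 1, by omega⟩
    have hs' : 3 * s + 2 = d := by omega
    have a0 : (X 1 0).coeff (s + 1) = 0 :=
      hcc 1 0 (s + 1) (by simp; omega) (cnt_crd10 k s (by omega))
    have a2 := hrel 1 0 (s + 1) (by simp; omega)
    rw [a0, zero_add, show (0 : Fin 3).rev = 2 from rfl, show (1 : Fin 3).rev = 1 from rfl] at a2
    exact (mul_eq_zero.mp a2).resolve_left (pow_ne_zero _ (neg_ne_zero.mpr one_ne_zero))
  · -- (2,2)
    simp only [Fin.reduceFinMk, Fin.val_two] at hs ⊢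
    have hs' : 3 * s = d := by omega
    have a0 : (X 0 0).coeff s = 0 :=
      hcc 0 0 s (by simpa using hs') (cnt_crd00 k s (by omega) (by omega))
    have a2 := hrel 0 0 s (by simpa using hs')
    rw [a0, zero_add, show (0 : Fin 3).rev = 2 from rfl] at a2
    exact (mul_eq_zero.mp a2).resolve_left (pow_ne_zero _ (neg_ne_zero.mpr one_ne_zero))

end

theorem st_CNT (h1 : ST_ALG) (h2 : ST_FIL) (h3 : ST_GAM) : ST_CNT := by
  intro F _ hF k M N hk hM hN hc
  obtain ⟨-, gmul, gtw, -⟩ := h3 F hF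
  obtain ⟨amul, asub, atw, aone, -⟩ := h1 F hF
  have hY : Mem (tw N * M) := gmul _ _ (gtw N hN) hM
  set Y : Mat F := tw N * M with hYd
  set X : Mat F := Y - 1 with hXd
  have hYX : Y = 1 + X := by rw [hXd]; abel
  have hMN : M - N = N * X := by
    rw [hXd, mul_sub, mul_one, hYd, ← mul_assoc, hN.2.2.1, one_mul]
  have htw : X + tw X + X * tw X = 0 := by
    have e1 : tw X = tw Y - 1 := by rw [hXd, asub, aone]
    have e2 := hY.2.2.1
    rw [e1, mul_sub, mul_one]
    have e3 : X * tw Y = 1 - tw Y := by rw [hXd, sub_mul, e2, one_mul]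
    rw [e3]
    abel
  have hdet : (1 + X).det = 1 := by rw [← hYX]; exact hY.1
  have hfil : ∀ d, 1 ≤ d → d ≤ k → Fil d X := by
    intro d hd1
    induction d, hd1 using Nat.le_induction with
    | base => intro _; exact hY.2.1
    | succ d hd ih =>
      intro hdk
      have hX := ih (by omega)
      intro i j s hs
      by_cases h : 3 * s + (j : ℕ) < d + (i : ℕ)
      · exact hX i j s h
      · exact cnt_step h1 h2 hF k d M N X hd (by omega) hX hN.2.1 hMN htw hdet hc i j s (by omega)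
          (fun hh => by omega)
  intro i j s hs hcor
  have hX := hfil k hk le_rfl
  by_cases h : 3 * s + (j : ℕ) < k + (i : ℕ)
  · exact hX i j s h
  · exact cnt_step h1 h2 hF k k M N X hk le_rfl hX hN.2.1 hMN htw hdet hc i j s (by omega)
      (fun hh => hcor ⟨by omega, hh.2⟩)

end Pool.Agent.Helper69.GC
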