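import Pool.Agent.Helper41.GC.CNT

set_option autoImplicit false

/-! Module DET: order of vanishing of the coefficients of the characteristic polynomial. -/

namespace Pool.Agent.Helper69.GC

open Polynomial

section

variable {F : Type} [Field F]

theorem det_bounds (k : ℕ) (N : Mat F) (a b c d e f g h l : ℤ)
    (v00 : cnt_V (N 0 0) a) (v01 : cnt_V (N 0 1) b) (v02 : cnt_V (N 0 2) c)
    (v10 : cnt_V (N 1 0) d) (v11 : cnt_V (N 1 1) e) (v12 : cnt_V (N 1 2) f)
    (v20 : cnt_V (N 2 0) g) (v21 : cnt_V (N 2 1) h) (v22 : cnt_V (N 2 2) l)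
    (ha : a = k + 1) (hb : b = k) (hd : d = k + 2) (he : e = k + 1) (hf : f = k)
    (hh : h = k + 2) (hl : l = k + 1)
    (hcg : (c = k - 1 ∧ g = k + 2) ∨ (c = k - 2 ∧ g = k + 3)) :
    (∀ s : ℕ, s ≤ k → N.det.coeff s = 0) ∧
    (∀ s : ℕ, s ≤ 2 * (k / 3) → ((N 0 0 * N 1 1 - N 0 1 * N 1 0) +
        (N 0 0 * N 2 2 - N 0 2 * N 2 0) + (N 1 1 * N 2 2 - N 1 2 * N 2 1)).coeff s = 0) := by
  constructor
  · intro s hs
    rw [Matrix.det_fin_three]
    simp only [coeff_add, coeff_sub]
    rw [cnt_V_mul (cnt_V_mul v00 v11) v22 s (by omega),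
      cnt_V_mul (cnt_V_mul v00 v12) v21 s (by omega),
      cnt_V_mul (cnt_V_mul v01 v10) v22 s (by omega),
      cnt_V_mul (cnt_V_mul v01 v12) v20 s (by omega),
      cnt_V_mul (cnt_V_mul v02 v10) v21 s (by omega),
      cnt_V_mul (cnt_V_mul v02 v11) v20 s (by omega)]
    ring
  · intro s hs
    simp only [coeff_add, coeff_sub]
    rw [cnt_V_mul v00 v11 s (by omega), cnt_V_mul v01 v10 s (by omega),
      cnt_V_mul v00 v22 s (by omega), cnt_V_mul v02 v20 s (by omega),
      cnt_V_mul v11 v22 s (by omega), cnt_V_mul v12 v21 s (by omega)]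
    ring

theorem det_trtw (M : Mat F) : Matrix.trace (tw M) = (Matrix.trace M).comp (-X) := by
  rw [Matrix.trace_fin_three, Matrix.trace_fin_three]
  unfold tw
  simp only [Matrix.of_apply, add_comp]
  rw [show (0 : Fin 3).rev = 2 from rfl, show (1 : Fin 3).rev = 1 from rfl,
    show (2 : Fin 3).rev = 0 from rfl]
  norm_num
  ring

theorem det_tw (M : Mat F) (hM : Mem M) : tw M = M.adjugate := by
  have h1 : M.adjugate * (M * tw M) = M.adjugate := by rw [hM.2.2.1, mul_one]
  rw [← mul_assoc, Matrix.adjugate_mul, hM.1, one_smul, one_mul] at h1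
  exact h1

end

theorem st_DET : ST_DET := by
  intro F _ k M hM hL
  have hbound : (∀ s : ℕ, s ≤ k → (M - 1).det.coeff s = 0) ∧
      (∀ s : ℕ, s ≤ 2 * (k / 3) → (((M - 1) 0 0 * (M - 1) 1 1 - (M - 1) 0 1 * (M - 1) 1 0) +
        ((M - 1) 0 0 * (M - 1) 2 2 - (M - 1) 0 2 * (M - 1) 2 0) +
        ((M - 1) 1 1 * (M - 1) 2 2 - (M - 1) 1 2 * (M - 1) 2 1)).coeff s = 0) := by
    have v : ∀ i j : Fin 3, ¬ ((i = 2 ∧ j = 0) ∨ (i = 0 ∧ j = 2)) →
        cnt_V ((M - 1) i j) ((k : ℤ) + 1 + (i : ℕ) - (j : ℕ)) := by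
      intro i j hc s hs
      exact hL i j s (by omega) (fun hh => hc hh.2)
    have w : ((k % 3 ≠ 2) ∧ cnt_V ((M - 1) 0 2) ((k : ℤ) - 1) ∧
        cnt_V ((M - 1) 2 0) ((k : ℤ) + 2)) ∨ ((k % 3 = 2) ∧ cnt_V ((M - 1) 0 2) ((k : ℤ) - 2) ∧
        cnt_V ((M - 1) 2 0) ((k : ℤ) + 3)) := by
      by_cases h3 : k % 3 = 2
      · refine Or.inr ⟨h3, ?_, ?_⟩
        · intro s hs
          exact hL 0 2 s (by simp; omega) (fun hh => by
            have := hh.1
            simp only [Fin.val_zero, Fin.val_two] at this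
            omega)
        · intro s hs
          exact hL 2 0 s (by simp; omega) (fun hh => by
            have := hh.1
            simp only [Fin.val_zero, Fin.val_two] at this
            omega)
      · refine Or.inl ⟨h3, ?_, ?_⟩
        · intro s hs
          exact hL 0 2 s (by simp; omega) (fun hh => by
            have := hh.1
            simp only [Fin.val_zero, Fin.val_two] at this
            omega)
        · intro s hs
          exact hL 2 0 s (by simp; omega) (fun hh => by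
            have := hh.1
            simp only [Fin.val_zero, Fin.val_two] at this
            omega)
    rcases w with ⟨-, w1, w2⟩ | ⟨-, w1, w2⟩
    · exact det_bounds k (M - 1) _ _ _ _ _ _ _ _ _ (v 0 0 (by decide)) (v 0 1 (by decide)) w1
        (v 1 0 (by decide)) (v 1 1 (by decide)) (v 1 2 (by decide)) w2 (v 2 1 (by decide))
        (v 2 2 (by decide)) (by norm_num) (by norm_num) (by norm_num; ring) (by norm_num)
        (by norm_num; omega) (by norm_num; ring) (by norm_num) (Or.inl ⟨rfl, rfl⟩)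
    · exact det_bounds k (M - 1) _ _ _ _ _ _ _ _ _ (v 0 0 (by decide)) (v 0 1 (by decide)) w1
        (v 1 0 (by decide)) (v 1 1 (by decide)) (v 1 2 (by decide)) w2 (v 2 1 (by decide))
        (v 2 2 (by decide)) (by norm_num) (by norm_num) (by norm_num; ring) (by norm_num)
        (by norm_num; omega) (by norm_num; ring) (by norm_num) (Or.inr ⟨rfl, rfl⟩)
  have htr : (Matrix.trace M).comp (-X) =
      (M 1 1 * M 2 2 - M 1 2 * M 2 1) + (M 0 0 * M 2 2 - M 0 2 * M 2 0) +
        (M 0 0 * M 1 1 - M 0 1 * M 1 0) := by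
    rw [← det_trtw, det_tw M hM, Matrix.trace_fin_three, Matrix.adjugate_fin_three]
    simp
  have n1 : ∀ i j : Fin 3, i ≠ j → (M - 1) i j = M i j := by
    intro i j hij
    rw [Matrix.sub_apply, Matrix.one_apply_ne hij, sub_zero]
  have n2 : ∀ i : Fin 3, (M - 1) i i = M i i - 1 := by
    intro i
    rw [Matrix.sub_apply, Matrix.one_apply_eq]
  have hdet := hM.1
  rw [Matrix.det_fin_three] at hdet
  constructor
  · intro s hs
    rw [← hbound.1 s hs]
    congr 1
    rw [htr, Matrix.det_fin_three, Matrix.trace_fin_three]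
    simp only [n1 _ _ (show (0 : Fin 3) ≠ 1 by decide), n1 _ _ (show (0 : Fin 3) ≠ 2 by decide),
      n1 _ _ (show (1 : Fin 3) ≠ 0 by decide), n1 _ _ (show (1 : Fin 3) ≠ 2 by decide),
      n1 _ _ (show (2 : Fin 3) ≠ 0 by decide), n1 _ _ (show (2 : Fin 3) ≠ 1 by decide), n2]
    linear_combination (-1 : F[X]) * hdet
  · intro s hs
    rw [← hbound.2 s hs]
    congr 1
    rw [htr, Matrix.trace_fin_three]
    simp only [n1 _ _ (show (0 : Fin 3) ≠ 1 by decide), n1 _ _ (show (0 : Fin 3) ≠ 2 by decide),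
      n1 _ _ (show (1 : Fin 3) ≠ 0 by decide), n1 _ _ (show (1 : Fin 3) ≠ 2 by decide),
      n1 _ _ (show (2 : Fin 3) ≠ 0 by decide), n1 _ _ (show (2 : Fin 3) ≠ 1 by decide), n2]
    ring

end Pool.Agent.Helper69.GC
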